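import Pool.Agent.H195R3.SpecMeasD

/-!
# A spectral self-affine measure without overlap which has no Hadamard triple

`R = diag(4,3)` and `B = {(0,0),(1,0),(8,1),(9,1)}`. The digits are pairwise incongruent modulo
`R ℤ²`, `#B = 4 < 12 = |det R|` and `ℤ[R,B] = ℤ²`. The self-affine measure is spectral and has no
overlap, but `(R,B,L)` is never a Hadamard triple.
-/

set_option autoImplicit false
open MeasureTheory Matrix
open scoped ENNReal Real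

namespace Pool.Agent.Results.MP_a3bfa4_an.NotHadamard

noncomputable section

variable {d : ℕ}

/-- Every complex eigenvalue of `R` has modulus greater than one. -/
def Expanding (R : Matrix (Fin d) (Fin d) ℤ) : Prop :=
  ∀ z : ℂ, (R.map (Int.cast : ℤ → ℂ)).charpoly.IsRoot z → 1 < ‖z‖

/-- The map `τ_b(x) = R⁻¹ (x + b)` on `ℝ^d`. -/
def tau (R : Matrix (Fin d) (Fin d) ℤ) (b : Fin d → ℤ) : (Fin d → ℝ) → (Fin d → ℝ) :=
  fun x => (R.map (Int.cast : ℤ → ℝ))⁻¹ *ᵥ (x + fun i => (b i : ℝ))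

/-- `μ` is a self-affine probability measure: `μ = (1/#B) ∑_{b ∈ B} μ ∘ τ_b⁻¹`. -/
def IsSelfAffine (R : Matrix (Fin d) (Fin d) ℤ) (B : Finset (Fin d → ℤ))
    (μ : Measure (Fin d → ℝ)) : Prop :=
  IsProbabilityMeasure μ ∧ μ = ((B.card : ℝ≥0∞)⁻¹) • ∑ b ∈ B, μ.map (tau R b)

/-- `T` is the attractor: nonempty, compact and `T = ⋃_{b ∈ B} τ_b(T)`. -/
def IsAttractor (R : Matrix (Fin d) (Fin d) ℤ) (B : Finset (Fin d → ℤ))
    (T : Set (Fin d → ℝ)) : Prop :=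
  T.Nonempty ∧ IsCompact T ∧ T = ⋃ b ∈ B, tau R b '' T

/-- No overlap: `μ (τ_b(T) ∩ τ_{b'}(T)) = 0` for `b ≠ b'`. -/
def NoOverlap (R : Matrix (Fin d) (Fin d) ℤ) (B : Finset (Fin d → ℤ))
    (μ : Measure (Fin d → ℝ)) (T : Set (Fin d → ℝ)) : Prop :=
  ∀ b ∈ B, ∀ b' ∈ B, b ≠ b' → μ (tau R b '' T ∩ tau R b' '' T) = 0

/-- The exponential `x ↦ exp(2 π i ⟨l, x⟩)`. -/
def expo (l : Fin d → ℝ) (x : Fin d → ℝ) : ℂ :=
  Complex.exp (2 * π * Complex.I * ((∑ i, l i * x i : ℝ) : ℂ))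

/-- `μ` is spectral: for some countable `Λ` the exponentials with frequencies in `Λ` are an
orthonormal basis (Hilbert basis) of `L²(μ)`. -/
def IsSpectral (μ : Measure (Fin d → ℝ)) : Prop :=
  ∃ Λ : Set (Fin d → ℝ), Λ.Countable ∧
    ∃ e : HilbertBasis Λ ℂ (Lp ℂ 2 μ), ∀ l : Λ, (e l : (Fin d → ℝ) → ℂ) =ᵐ[μ] expo (l : Fin d → ℝ)

/-- The matrix `(#B)^{-1/2} (exp(2 π i ⟨R⁻¹ b, l⟩))_{l ∈ L, b ∈ B}`. -/
def hadamardMatrix (R : Matrix (Fin d) (Fin d) ℤ) (B L : Finset (Fin d → ℤ)) : Matrix L B ℂ :=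
  Matrix.of fun l b => ((1 / Real.sqrt (B.card : ℝ) : ℝ) : ℂ) *
    Complex.exp (2 * π * Complex.I *
      ((∑ i, ((R.map (Int.cast : ℤ → ℝ))⁻¹ *ᵥ (fun j => ((b : Fin d → ℤ) j : ℝ))) i *
        ((l : Fin d → ℤ) i : ℝ) : ℝ) : ℂ))

/-- `(R,B,L)` is a Hadamard triple: `#L = #B` and the matrix above is unitary. -/
def IsHadamardTriple (R : Matrix (Fin d) (Fin d) ℤ) (B L : Finset (Fin d → ℤ)) : Prop :=
  L.card = B.card ∧ hadamardMatrix R B L * (hadamardMatrix R B L)ᴴ = 1 ∧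
    (hadamardMatrix R B L)ᴴ * hadamardMatrix R B L = 1

open Pool.Agent.H195R3.SpecMeas in
lemma memLp_expo (l : Fin 2 → ℝ) : MemLp (expo l) 2 Pool.Agent.H195R3.SpecMeas.μ := by
  refine MemLp.of_bound (C := 1) ?_ ?_
  · apply Continuous.aestronglyMeasurable
    unfold expo; fun_prop
  · filter_upwards with x
    exact (norm_exp_I _).le

lemma conj_expo_mul (l l' x : Fin 2 → ℝ) : (starRingEnd ℂ) (expo l x) * expo l' x =
    Complex.exp (2 * π * Complex.I * ((∑ i, (l' i - l i) * x i : ℝ) : ℂ)) := by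
  unfold expo
  rw [← Complex.exp_conj, ← Complex.exp_add]
  congr 1
  simp only [map_mul, Complex.conj_I, Complex.conj_ofReal, map_ofNat, Fin.sum_univ_two]
  push_cast
  ring

open Pool.Agent.H195R3.SpecMeas in
lemma countable_Lam : Λ.Countable := by
  have : Λ ⊆ (Set.range fun k : ℤ => (![(k:ℝ), 0] : Fin 2 → ℝ)) ∪ (Set.range fun k : ℤ => (![(k:ℝ) + 1/4, 0] : Fin 2 → ℝ)) := by
    rintro l ⟨h1, k, h | h⟩
    · left; refine ⟨k, ?_⟩; ext i; fin_cases i <;> simp [h, h1]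
    · right; refine ⟨k, ?_⟩; ext i; fin_cases i <;> simp [h, h1]
  exact ((Set.countable_range _).union (Set.countable_range _)).mono this

open Pool.Agent.H195R3.SpecMeas in
lemma spectral : IsSpectral Pool.Agent.H195R3.SpecMeas.μ := by
  refine ⟨Λ, countable_Lam, ?_⟩
  set v : Λ → Lp ℂ 2 Pool.Agent.H195R3.SpecMeas.μ := fun l => (memLp_expo (l : Fin 2 → ℝ)).toLp with hv
  have hcoe : ∀ l : Λ, (v l : (Fin 2 → ℝ) → ℂ) =ᵐ[Pool.Agent.H195R3.SpecMeas.μ] expo (l : Fin 2 → ℝ) :=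
    fun l => (memLp_expo (l : Fin 2 → ℝ)).coeFn_toLp
  have hinner : ∀ l l' : Λ, inner ℂ (v l) (v l') = ∫ x, Complex.exp (2 * π * Complex.I *
      ((∑ i, ((l' : Fin 2 → ℝ) i - (l : Fin 2 → ℝ) i) * x i : ℝ) : ℂ)) ∂Pool.Agent.H195R3.SpecMeas.μ := by
    intro l l'
    rw [MeasureTheory.L2.inner_def]
    apply integral_congr_ae
    filter_upwards [hcoe l, hcoe l'] with x h1 h2
    rw [h1, h2, RCLike.inner_apply, ← conj_expo_mul]
    ring
  have hon : Orthonormal ℂ v := by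
    rw [orthonormal_iff_ite]
    intro l l'
    rw [hinner]
    split_ifs with h
    · subst h
      exact (orth l l.2 l l.2).1 rfl
    · exact (orth l' l'.2 l l.2).2 (fun h' => h (Subtype.ext h'.symm))
  have hbot : (Submodule.span ℂ (Set.range v))ᗮ = ⊥ := by
    rw [eq_bot_iff]
    intro f hf
    rw [Submodule.mem_bot]
    have h0 : ∀ l ∈ Λ, ∫ x, f x * Complex.exp (-(2 * π * Complex.I * ((∑ i, l i * x i : ℝ) : ℂ))) ∂Pool.Agent.H195R3.SpecMeas.μ = 0 := by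
      intro l hl
      have h1 := (Submodule.mem_orthogonal _ _).mp hf (v ⟨l, hl⟩) (Submodule.subset_span ⟨_, rfl⟩)
      rw [MeasureTheory.L2.inner_def] at h1
      rw [← h1]
      apply integral_congr_ae
      filter_upwards [hcoe ⟨l, hl⟩] with x h2
      rw [h2, RCLike.inner_apply, expo, ← Complex.exp_conj]
      congr 2
      simp only [map_mul, Complex.conj_I, Complex.conj_ofReal, map_ofNat]
      ring
    have := comp f (Lp.memLp f) h0
    exact (Lp.eq_zero_iff_ae_eq_zero).mpr this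
  refine ⟨HilbertBasis.mkOfOrthogonalEqBot hon hbot, fun l => ?_⟩
  rw [HilbertBasis.coe_mkOfOrthogonalEqBot]
  exact hcoe l

open Pool.Agent.H195R3.SpecMeas in
lemma not_hadamard : ¬ ∃ L, IsHadamardTriple Pool.Agent.H195R3.SpecMeas.R Pool.Agent.H195R3.SpecMeas.B L := by
  rintro ⟨L, hL, hH, -⟩
  have key : ∀ l ∈ L, ∀ l' ∈ L, l ≠ l' → (l 0 - l' 0) % 4 = 2 := by
    intro l hl l' hl' hne
    have h1 := congrFun (congrFun hH ⟨l, hl⟩) ⟨l', hl'⟩
    rw [Matrix.one_apply_ne (by simpa using hne), Matrix.mul_apply] at h1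
    simp only [hadamardMatrix, Matrix.conjTranspose_apply, Matrix.of_apply] at h1
    have h2 : ∀ b : Pool.Agent.H195R3.SpecMeas.B,
        ((1 / Real.sqrt (Pool.Agent.H195R3.SpecMeas.B.card : ℝ) : ℝ) : ℂ) *
    Complex.exp (2 * π * Complex.I *
      ((∑ i, ((Pool.Agent.H195R3.SpecMeas.R.map (Int.cast : ℤ → ℝ))⁻¹ *ᵥ (fun j => ((b : Fin 2 → ℤ) j : ℝ))) i *
        (l i : ℝ) : ℝ) : ℂ)) * star (((1 / Real.sqrt (Pool.Agent.H195R3.SpecMeas.B.card : ℝ) : ℝ) : ℂ) *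
    Complex.exp (2 * π * Complex.I *
      ((∑ i, ((Pool.Agent.H195R3.SpecMeas.R.map (Int.cast : ℤ → ℝ))⁻¹ *ᵥ (fun j => ((b : Fin 2 → ℤ) j : ℝ))) i *
        (l' i : ℝ) : ℝ) : ℂ))) = (1/4 : ℂ) * Complex.exp (2 * π * Complex.I *
              ((∑ i, ((Pool.Agent.H195R3.SpecMeas.R.map (Int.cast : ℤ → ℝ))⁻¹ *ᵥ (fun j => ((b : Fin 2 → ℤ) j : ℝ))) i * ((l i : ℝ) - (l' i : ℝ)) : ℝ) : ℂ)) := by
      intro b
      rw [star_mul', Complex.star_def, ← Complex.exp_conj, Complex.conj_ofReal]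
      have hs : ((1 / Real.sqrt (Pool.Agent.H195R3.SpecMeas.B.card : ℝ) : ℝ) : ℂ) * ((1 / Real.sqrt (Pool.Agent.H195R3.SpecMeas.B.card : ℝ) : ℝ) : ℂ) = 1/4 := by
        rw [B_card, ← Complex.ofReal_mul, ← sq, div_pow, Real.sq_sqrt (by norm_num)]
        norm_num
      have he : Complex.exp (2 * π * Complex.I *
      ((∑ i, ((Pool.Agent.H195R3.SpecMeas.R.map (Int.cast : ℤ → ℝ))⁻¹ *ᵥ (fun j => ((b : Fin 2 → ℤ) j : ℝ))) i *
        (l i : ℝ) : ℝ) : ℂ)) * Complex.exp ((starRingEnd ℂ) (2 * π * Complex.I *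
      ((∑ i, ((Pool.Agent.H195R3.SpecMeas.R.map (Int.cast : ℤ → ℝ))⁻¹ *ᵥ (fun j => ((b : Fin 2 → ℤ) j : ℝ))) i *
        (l' i : ℝ) : ℝ) : ℂ))) = Complex.exp (2 * π * Complex.I *
              ((∑ i, ((Pool.Agent.H195R3.SpecMeas.R.map (Int.cast : ℤ → ℝ))⁻¹ *ᵥ (fun j => ((b : Fin 2 → ℤ) j : ℝ))) i * ((l i : ℝ) - (l' i : ℝ)) : ℝ) : ℂ)) := by
        rw [← Complex.exp_add]
        congr 1
        simp only [map_mul, Complex.conj_I, Complex.conj_ofReal, map_ofNat, Fin.sum_univ_two]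
        push_cast
        ring
      rw [← he, ← hs]
      ring
    rw [Finset.sum_congr rfl (fun b _ => h2 b), ← Finset.mul_sum] at h1
    have h3 := (mul_eq_zero.mp h1).resolve_left (by norm_num)
    rw [Finset.sum_coe_sort Pool.Agent.H195R3.SpecMeas.B (fun b => Complex.exp (2 * π * Complex.I *
              ((∑ i, ((Pool.Agent.H195R3.SpecMeas.R.map (Int.cast : ℤ → ℝ))⁻¹ *ᵥ (fun j => (b j : ℝ))) i * ((l i : ℝ) - (l' i : ℝ)) : ℝ) : ℂ))),
      sum_B (fun i => (l i : ℝ) - (l' i : ℝ))] at h3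
    apply mask_zero (fun i => l i - l' i)
    simpa using h3
  rw [B_card] at hL
  obtain ⟨a, b, c, ha, hb, hc, hab, hac, hbc⟩ := Finset.two_lt_card_iff.mp (by omega : 2 < L.card)
  have h1 := key a ha b hb hab
  have h2 := key b hb c hc hbc
  have h3 := key a ha c hc hac
  omega

/-- There are an expanding integer matrix `R` and a finite digit set `B` (even simple, with
`#B < |det R|`, `0 ∈ B` and `ℤ[R,B] = ℤ²`) whose self-affine measure is spectral and has no overlap,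
while no finite `L ⊂ ℤ²` makes `(R,B,L)` a Hadamard triple. -/
theorem result : ∃ (R : Matrix (Fin 2) (Fin 2) ℤ) (B : Finset (Fin 2 → ℤ))
    (μ : Measure (Fin 2 → ℝ)) (T : Set (Fin 2 → ℝ)),
    Expanding R ∧ 2 ≤ B.card ∧ (B.card : ℤ) < |R.det| ∧ (0 : Fin 2 → ℤ) ∈ B ∧
    (∀ b ∈ B, ∀ b' ∈ B, b ≠ b' → ¬ ∃ v : Fin 2 → ℤ, R *ᵥ v = b - b') ∧
    AddSubgroup.closure {v : Fin 2 → ℤ | ∃ k : ℕ, ∃ b ∈ B, v = (R ^ k) *ᵥ b} = ⊤ ∧
    IsSelfAffine R B μ ∧ IsAttractor R B T ∧ NoOverlap R B μ T ∧ IsSpectral μ ∧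
    ¬ ∃ L : Finset (Fin 2 → ℤ), IsHadamardTriple R B L := by
  refine ⟨Pool.Agent.H195R3.SpecMeas.R, Pool.Agent.H195R3.SpecMeas.B, Pool.Agent.H195R3.SpecMeas.μ,
    Pool.Agent.H195R3.SpecMeas.att, Pool.Agent.H195R3.SpecMeas.R_exp, ?_, ?_,
    Pool.Agent.H195R3.SpecMeas.B_zero, Pool.Agent.H195R3.SpecMeas.B_simple,
    Pool.Agent.H195R3.SpecMeas.B_closure, ⟨inferInstance, Pool.Agent.H195R3.SpecMeas.mu_selfsim⟩,
    ⟨Pool.Agent.H195R3.SpecMeas.att_nonempty, Pool.Agent.H195R3.SpecMeas.compact_att,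
      Pool.Agent.H195R3.SpecMeas.att_eq⟩, Pool.Agent.H195R3.SpecMeas.no_overlap, spectral, not_hadamard⟩
  · rw [Pool.Agent.H195R3.SpecMeas.B_card]; norm_num
  · rw [Pool.Agent.H195R3.SpecMeas.B_card, Pool.Agent.H195R3.SpecMeas.R_det]; norm_num

end

end Pool.Agent.Results.MP_a3bfa4_an.NotHadamard
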